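import Pool.Agent.H28.LF.F1

/-!
Project LF: CR1 (short windows with arbitrary weights, Parseval on a finite cyclic group)
-/

set_option autoImplicit false

open Finset

namespace Pool.Agent.H5.LF

open Pool.Agent.H28.LF

/-- orthogonality of the characters -/
theorem orth {q p : ℂ} {N : ℕ} (hN : 0 < N) (hq : IsPrimitiveRoot q N) (hqp : q * p = 1)
    {i j : ℕ} (hi : i < N) (hj : j < N) :
    ∑ t ∈ range N, q ^ (t * (j + 1)) * p ^ (t * (i + 1)) = if i = j then (N : ℂ) else 0 := by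
  have hq0 : q ≠ 0 := hq.ne_zero hN.ne'
  have e1 : ∀ t ∈ range N, q ^ (t * (j + 1)) * p ^ (t * (i + 1)) =
      (q ^ (j + 1) * p ^ (i + 1)) ^ t := by
    intro t _
    rw [mul_pow, ← pow_mul, ← pow_mul, mul_comm t (j + 1), mul_comm t (i + 1)]
  rw [Finset.sum_congr rfl e1]
  have hpN : p ^ N = 1 := by
    have h := congrArg (fun z : ℂ => z ^ N) hqp
    simp only [mul_pow, one_pow, hq.pow_eq_one, one_mul] at h
    exact h
  by_cases hij : i = j
  · rw [if_pos hij, hij, ← mul_pow, hqp, one_pow]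
    simp
  · rw [if_neg hij]
    have hr : q ^ (j + 1) * p ^ (i + 1) ≠ 1 := by
      intro h
      have h1 : q ^ (i + 1) * p ^ (i + 1) = 1 := by rw [← mul_pow, hqp, one_pow]
      have hp : p ^ (i + 1) ≠ 0 := by
        intro h0
        rw [h0, mul_zero] at h1
        exact zero_ne_one h1
      have h2 : q ^ (j + 1) = q ^ (i + 1) := mul_right_cancel₀ hp (h.trans h1.symm)
      rw [pow_succ, pow_succ] at h2
      have h3 : q ^ j = q ^ i := mul_right_cancel₀ hq0 h2
      exact hij (hq.pow_inj hj hi h3).symm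
    have hrN : (q ^ (j + 1) * p ^ (i + 1)) ^ N = 1 := by
      rw [mul_pow, ← pow_mul, ← pow_mul, mul_comm (j + 1) N, mul_comm (i + 1) N, pow_mul, pow_mul,
        hq.pow_eq_one, hpN, one_pow, one_pow, one_mul]
    have h4 := mul_geom_sum (q ^ (j + 1) * p ^ (i + 1)) N
    rw [hrN, sub_self] at h4
    rcases mul_eq_zero.1 h4 with h5 | h5
    · exact absurd (sub_eq_zero.1 h5) hr
    · exact h5

open ComplexConjugate in
/-- Parseval for short sums -/
theorem pars {q p : ℂ} {N K : ℕ} (hN : 0 < N) (hq : IsPrimitiveRoot q N) (hqp : q * p = 1)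
    (hc : conj p = q) (hK : K ≤ N) (a : ℕ → ℂ) (ha : ∀ h, ‖a h‖ ≤ 1) :
    ∑ t ∈ range N, ‖∑ h ∈ range K, a h * p ^ (t * (h + 1))‖ ^ 2 ≤ N * K := by
  have e1 : ((∑ t ∈ range N, ‖∑ h ∈ range K, a h * p ^ (t * (h + 1))‖ ^ 2 : ℝ) : ℂ) =
      N * ∑ h ∈ range K, (‖a h‖ : ℂ) ^ 2 := by
    push_cast
    have e2 : ∀ t ∈ range N, ((‖∑ h ∈ range K, a h * p ^ (t * (h + 1))‖ : ℂ)) ^ 2 =
        ∑ h ∈ range K, ∑ k ∈ range K, a h * conj (a k) *
          (q ^ (t * (k + 1)) * p ^ (t * (h + 1))) := by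
      intro t _
      rw [← Complex.mul_conj', map_sum, Finset.sum_mul_sum]
      refine Finset.sum_congr rfl fun h _ => Finset.sum_congr rfl fun k _ => ?_
      rw [map_mul, map_pow, hc]
      ring
    rw [Finset.sum_congr rfl e2, Finset.sum_comm, Finset.mul_sum]
    refine Finset.sum_congr rfl fun h hh => ?_
    rw [Finset.sum_comm]
    have e3 : ∀ k ∈ range K, ∑ t ∈ range N, a h * conj (a k) *
          (q ^ (t * (k + 1)) * p ^ (t * (h + 1))) = if h = k then (N : ℂ) * (‖a h‖ : ℂ) ^ 2 else 0 := by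
      intro k hk
      rw [← Finset.mul_sum, orth hN hq hqp (lt_of_lt_of_le (mem_range.1 hh) hK)
        (lt_of_lt_of_le (mem_range.1 hk) hK)]
      by_cases e : h = k
      · rw [if_pos e, if_pos e, e, Complex.mul_conj']
        ring
      · rw [if_neg e, if_neg e, mul_zero]
    rw [Finset.sum_congr rfl e3, Finset.sum_ite_eq, if_pos hh]
  have e4 : ∑ t ∈ range N, ‖∑ h ∈ range K, a h * p ^ (t * (h + 1))‖ ^ 2 =
      N * ∑ h ∈ range K, ‖a h‖ ^ 2 := by
    exact_mod_cast e1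
  rw [e4]
  refine mul_le_mul_of_nonneg_left ?_ (Nat.cast_nonneg _)
  calc ∑ h ∈ range K, ‖a h‖ ^ 2 ≤ ∑ h ∈ range K, (1 : ℝ) := by
        refine Finset.sum_le_sum fun h _ => ?_
        have := ha h
        have := norm_nonneg (a h)
        nlinarith
    _ = K := by simp


theorem em_pow (t : ℝ) (n : ℕ) : H28.LF.em (n * t) = H28.LF.em t ^ n := by
  unfold H28.LF.em
  rw [← Complex.exp_nat_mul]
  congr 1
  push_cast
  ring

theorem em_norm (t : ℝ) : ‖H28.LF.em t‖ = 1 := by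
  unfold H28.LF.em
  rw [show (-(2 * Real.pi * Complex.I * t) : ℂ) = ((-(2 * Real.pi * t) : ℝ) : ℂ) * Complex.I by
    push_cast; ring]
  exact Complex.norm_exp_ofReal_mul_I _

/-- the sign of a complex number -/
theorem sgn (z : ℂ) : ∃ b : ℂ, ‖b‖ ≤ 1 ∧ b * z = ‖z‖ := by
  by_cases hz : z = 0
  · exact ⟨0, by simp, by simp [hz]⟩
  · refine ⟨(starRingEnd ℂ) z / ‖z‖, ?_, ?_⟩
    · rw [norm_div, RCLike.norm_conj, Complex.norm_real, norm_norm, div_self (norm_ne_zero_iff.2 hz)]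
    · have h : (‖z‖ : ℂ) ≠ 0 := by exact_mod_cast norm_ne_zero_iff.2 hz
      rw [div_mul_eq_mul_div, mul_comm, Complex.mul_conj', sq, mul_div_assoc, div_self h, mul_one]

theorem core {K : ℕ} (hK : 0 < K) (f a : ℕ → ℂ) (ha : ∀ h, ‖a h‖ ≤ 1) (S : ℝ)
    (hS : ∀ θ : ℝ, ‖∑ j ∈ range (2 * K), H28.LF.em ((j + 1) * θ) * f (j + 1)‖ ≤ S) :
    ∑ k ∈ range K, ‖∑ h ∈ range K, a h * f (h + k + 2)‖ ≤ K * S := by
  classical
  have hN : 0 < 2 * K := by omega
  generalize hNN : 2 * K = N at *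
  have hN0 : (N : ℂ) ≠ 0 := by exact_mod_cast hN.ne'
  obtain ⟨p, hp⟩ : ∃ p : ℂ, p = Complex.exp (2 * Real.pi * Complex.I / N) := ⟨_, rfl⟩
  obtain ⟨q, hq⟩ : ∃ q : ℂ, q = H28.LF.em (1 / N) := ⟨_, rfl⟩
  have hqp : q = p⁻¹ := by
    rw [hq, hp, ← Complex.exp_neg]
    unfold H28.LF.em
    congr 1
    push_cast
    ring
  have hpp : IsPrimitiveRoot p N := by
    rw [hp]
    exact Complex.isPrimitiveRoot_exp N hN.ne'
  have hqq : IsPrimitiveRoot q N := by
    rw [hqp]
    exact hpp.inv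
  have hp0 : p ≠ 0 := hpp.ne_zero hN.ne'
  have hq1 : ‖q‖ = 1 := by rw [hq]; exact em_norm _
  have hp1 : ‖p‖ = 1 := by
    have h := hq1
    rw [hqp, norm_inv, inv_eq_one] at h
    exact h
  have hm : q * p = 1 := by rw [hqp, inv_mul_cancel₀ hp0]
  have hc : (starRingEnd ℂ) p = q := by rw [hqp, Complex.inv_eq_conj hp1]
  have hΦ : ∀ t : ℕ, ‖∑ j ∈ range N, f (j + 1) * q ^ (t * (j + 1))‖ ≤ S := by
    intro t
    have h := hS ((t : ℝ) * (1 / N))
    have e : ∑ j ∈ range N, H28.LF.em ((j + 1) * ((t : ℝ) * (1 / N))) * f (j + 1) =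
        ∑ j ∈ range N, f (j + 1) * q ^ (t * (j + 1)) := by
      refine Finset.sum_congr rfl fun j _ => ?_
      rw [mul_comm, hq, ← em_pow]
      congr 2
      push_cast
      ring
    rw [e] at h
    exact h
  choose b hb1 hb2 using fun k : ℕ => sgn (∑ h ∈ range K, a h * f (h + k + 2))
  have key : (N : ℂ) * ∑ k ∈ range K, (‖∑ h ∈ range K, a h * f (h + k + 2)‖ : ℂ) =
      ∑ t ∈ range N, (∑ h ∈ range K, a h * p ^ (t * (h + 1))) *
        (∑ k ∈ range K, b k * p ^ (t * (k + 1))) * ∑ j ∈ range N, f (j + 1) * q ^ (t * (j + 1)) := by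
    have e1 : ∀ t ∈ range N, (∑ h ∈ range K, a h * p ^ (t * (h + 1))) *
        (∑ k ∈ range K, b k * p ^ (t * (k + 1))) * ∑ j ∈ range N, f (j + 1) * q ^ (t * (j + 1)) =
        ∑ k ∈ range K, ∑ h ∈ range K, ∑ j ∈ range N, (a h * b k * f (j + 1)) *
          (q ^ (t * (j + 1)) * p ^ (t * ((h + k + 1) + 1))) := by
      intro t _
      rw [Finset.sum_mul_sum, Finset.sum_comm, Finset.sum_mul]
      refine Finset.sum_congr rfl fun k _ => ?_
      rw [Finset.sum_mul]
      refine Finset.sum_congr rfl fun h _ => ?_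
      rw [Finset.mul_sum]
      refine Finset.sum_congr rfl fun j _ => ?_
      rw [show t * (h + k + 1 + 1) = t * (h + 1) + t * (k + 1) by ring, pow_add]
      ring
    rw [Finset.sum_congr rfl e1, Finset.sum_comm, Finset.mul_sum]
    refine Finset.sum_congr rfl fun k hk => ?_
    rw [Finset.sum_comm, ← hb2 k, Finset.mul_sum, Finset.mul_sum]
    refine Finset.sum_congr rfl fun h hh => ?_
    rw [Finset.sum_comm]
    have hk' := mem_range.1 hk
    have hh' := mem_range.1 hh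
    have e3 : ∀ j ∈ range N, ∑ t ∈ range N, (a h * b k * f (j + 1)) *
          (q ^ (t * (j + 1)) * p ^ (t * ((h + k + 1) + 1))) =
        if h + k + 1 = j then (N : ℂ) * (b k * (a h * f (h + k + 2))) else 0 := by
      intro j hj
      rw [← Finset.mul_sum, orth hN hqq hm (i := h + k + 1) (j := j) (by omega) (mem_range.1 hj)]
      by_cases e : h + k + 1 = j
      · rw [if_pos e, if_pos e, ← e]
        ring
      · rw [if_neg e, if_neg e, mul_zero]
    rw [Finset.sum_congr rfl e3, Finset.sum_ite_eq, if_pos (mem_range.2 (by omega))]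
  have hA := pars hN hqq hm hc (K := K) (by omega) a ha
  have hB := pars hN hqq hm hc (K := K) (by omega) b hb1
  have h1 : (N : ℝ) * ∑ k ∈ range K, ‖∑ h ∈ range K, a h * f (h + k + 2)‖ =
      ‖∑ t ∈ range N, (∑ h ∈ range K, a h * p ^ (t * (h + 1))) *
        (∑ k ∈ range K, b k * p ^ (t * (k + 1))) *
          ∑ j ∈ range N, f (j + 1) * q ^ (t * (j + 1))‖ := by
    rw [← key, norm_mul, Complex.norm_natCast]
    congr 1
    rw [← Complex.ofReal_sum, Complex.norm_real, Real.norm_eq_abs, abs_of_nonneg]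
    exact Finset.sum_nonneg fun _ _ => norm_nonneg _
  have hS0 : 0 ≤ S := (norm_nonneg _).trans (hS 0)
  have h2 : (N : ℝ) * ∑ k ∈ range K, ‖∑ h ∈ range K, a h * f (h + k + 2)‖ ≤ N * K * S := by
    rw [h1]
    refine (norm_sum_le _ _).trans ?_
    have h3 : ∀ t ∈ range N, ‖(∑ h ∈ range K, a h * p ^ (t * (h + 1))) *
        (∑ k ∈ range K, b k * p ^ (t * (k + 1))) *
          ∑ j ∈ range N, f (j + 1) * q ^ (t * (j + 1))‖ ≤
        (‖∑ h ∈ range K, a h * p ^ (t * (h + 1))‖ ^ 2 +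
          ‖∑ k ∈ range K, b k * p ^ (t * (k + 1))‖ ^ 2) / 2 * S := by
      intro t _
      rw [norm_mul, norm_mul]
      refine mul_le_mul ?_ (hΦ t) (norm_nonneg _) (by positivity)
      nlinarith [sq_nonneg (‖∑ h ∈ range K, a h * p ^ (t * (h + 1))‖ -
        ‖∑ k ∈ range K, b k * p ^ (t * (k + 1))‖)]
    refine (Finset.sum_le_sum h3).trans ?_
    rw [← Finset.sum_mul, ← Finset.sum_div, Finset.sum_add_distrib]
    refine mul_le_mul_of_nonneg_right ?_ hS0
    linarith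
  have hNp : (0 : ℝ) < N := by exact_mod_cast hN
  nlinarith

theorem sum_one {M : Type} [AddCommMonoid M] (g : ℕ → M) (K : ℕ) :
    ∑ k ∈ Icc 1 K, g k = ∑ k ∈ range K, g (k + 1) := by
  induction K with
  | zero => simp
  | succ K ih => rw [Finset.sum_Icc_succ_top (by omega), ih, Finset.sum_range_succ]

theorem fk_norm {u : Bool × Bool → ℂ} (hu : ∀ b, ‖u b‖ = 1) (k n : ℕ) : ‖Fk u k n‖ = 1 := by
  unfold Fk
  rw [norm_prod]
  exact Finset.prod_eq_one fun i _ => hu _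

theorem fk_mul (u : Bool × Bool → ℂ) (h k n : ℕ) :
    Fk u h n * Fk u k (n + h) = Fk u (h + k) n := by
  unfold Fk
  rw [Finset.prod_range_add]
  congr 1
  refine Finset.prod_congr rfl fun i _ => ?_
  rw [show n + h + i + 1 = n + (h + i) + 1 by omega]

theorem mw_le {u : Bool × Bool → ℂ} (hu : ∀ b, ‖u b‖ = 1) (K n : ℕ) (θ : ℝ) :
    ‖mw u K θ n‖ ≤ 1 := by
  unfold mw
  rw [norm_div, Complex.norm_natCast]
  refine div_le_one_of_le₀ ?_ (Nat.cast_nonneg _)
  refine (norm_sum_le _ _).trans ?_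
  have h : ∀ k ∈ range K, ‖H28.LF.em ((k + 1) * θ) * Fk u (k + 1) n‖ ≤ 1 := by
    intro k _
    rw [norm_mul, em_norm, fk_norm hu, one_mul]
  refine (Finset.sum_le_sum h).trans ?_
  simp

theorem mw_le_SB {u : Bool × Bool → ℂ} (hu : ∀ b, ‖u b‖ = 1) (K n : ℕ) (θ : ℝ) :
    ‖mw u K θ n‖ ≤ SB u K n := by
  refine le_ciSup (f := fun θ : ℝ => ‖mw u K θ n‖) ?_ θ
  refine ⟨1, ?_⟩
  rintro _ ⟨θ, rfl⟩
  exact mw_le hu K n θ

theorem pf_CR1 : T_CR1 := by
  intro u hu K n w hK hw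
  have hKr : (0 : ℝ) < K := by exact_mod_cast hK
  have h1 := core hK (fun j => Fk u j n)
    (fun h => w (h + 1) * (starRingEnd ℂ) (Fk u (h + 1) n)) (fun h => by
      rw [norm_mul, RCLike.norm_conj, fk_norm hu, mul_one]
      exact hw _) (2 * K * SB u (2 * K) n) (fun θ => by
      have h := mw_le_SB hu (2 * K) n θ
      unfold mw at h
      rw [norm_div, Complex.norm_natCast, div_le_iff₀ (by exact_mod_cast (by omega : 0 < 2 * K))] at h
      refine h.trans (le_of_eq ?_)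
      push_cast
      ring)
  have e1 : ∑ k ∈ Icc 1 K, ‖(∑ h ∈ Icc 1 K, w h * Fk u k (n + h)) / K‖ =
      (∑ k ∈ range K, ‖∑ h ∈ range K, (w (h + 1) * (starRingEnd ℂ) (Fk u (h + 1) n)) *
        Fk u (h + k + 2) n‖) / K := by
    rw [sum_one, Finset.sum_div]
    refine Finset.sum_congr rfl fun k _ => ?_
    rw [norm_div, Complex.norm_natCast, sum_one]
    congr 2
    refine Finset.sum_congr rfl fun h _ => ?_
    rw [show h + k + 2 = (h + 1) + (k + 1) by omega, ← fk_mul u (h + 1) (k + 1) n]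
    have h2 : (starRingEnd ℂ) (Fk u (h + 1) n) * Fk u (h + 1) n = 1 := by
      rw [mul_comm, Complex.mul_conj', fk_norm hu]
      simp
    rw [mul_assoc, ← mul_assoc ((starRingEnd ℂ) (Fk u (h + 1) n)), h2, one_mul]
  rw [e1, div_div, div_le_iff₀ (by positivity)]
  refine h1.trans (le_of_eq ?_)
  ring

end Pool.Agent.H5.LF
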